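import Pool.Agent.Helper10.Fam.Stmts

/-! UP: soundness of the upper bound certificates. -/

set_option autoImplicit false

namespace Pool.Agent.Helper10.Fam

open Pool.Agent.Helper10.Lor

/-- only one summand can be nonzero -/
theorem up_sum_single {α : Type} (f : α → ℝ) (w0 : α) (K : ℝ) (hK : 0 ≤ K) (h0 : f w0 ≤ K) :
    ∀ W : List α, W.Nodup → (∀ w ∈ W, w ≠ w0 → f w = 0) → (W.map f).sum ≤ K := by
  intro W
  induction W with
  | nil => intro _ _; simpa using hK
  | cons a W ih =>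
    intro hnd hz
    rw [List.nodup_cons] at hnd
    rw [List.map_cons, List.sum_cons]
    by_cases ha : a = w0
    · subst ha
      have hrest : (W.map f).sum = 0 := by
        have : W.map f = W.map (fun _ => (0 : ℝ)) := by
          apply List.map_congr_left
          intro w hw
          apply hz w (List.mem_cons_of_mem _ hw)
          rintro rfl
          exact hnd.1 hw
        rw [this]
        simp
      rw [hrest, add_zero]
      exact h0
    · rw [hz a List.mem_cons_self ha, zero_add]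
      exact ih hnd.2 (fun w hw => hz w (List.mem_cons_of_mem _ hw))

theorem up_nearCusp (D : Dat) : ∀ L : List Vr, nearCusp D L = true → ∀ v ∈ L,
    2 * D.c * dn D.w0 v.v * (2 * D.c * dn D.w0 v.v) * D.d ≤ 1000000 * v.nu := by
  intro L
  induction L with
  | nil => intro _ v hv; exact absurd hv List.not_mem_nil
  | cons a L ih =>
    intro h v hv
    rw [nearCusp, Bool.and_eq_true] at h
    rcases List.mem_cons.mp hv with rfl | hv
    · exact Nat.le_of_ble_eq_true h.1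
    · exact ih h.2 v hv

theorem up_cenOK (HX : List ℕ) (ka : ℕ) : ∀ L : List Vr, cenOK HX ka L = true → ∀ v ∈ L,
    dn HX v.v ≤ v.s * ka := by
  intro L
  induction L with
  | nil => intro _ v hv; exact absurd hv List.not_mem_nil
  | cons a L ih =>
    intro h v hv
    rw [cenOK, Bool.and_eq_true] at h
    rcases List.mem_cons.mp hv with rfl | hv
    · exact Nat.le_of_ble_eq_true h.1
    · exact ih h.2 v hv

/-- `nu` is the value of the form -/
theorem up_nu (hA : ST_LSTA) (hC : ST_LSTC) (D : Dat) (v : Vr) (h : vOK D v = true) :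
    (v.nu : ℝ) = bl D.H (fn v.v) (fn v.v) := by
  rw [vOK, Bool.and_eq_true] at h
  have h2 : v.nu = dn v.v (mv D.H v.v) := Nat.eq_of_beq_eq_true h.2
  rw [h2, hA.dn_comm, hA.dn_eq, hC.mv_fn]

/-- near the cusp -/
theorem up_cusp (hA : ST_LSTA) (hC : ST_LSTC) (hCone : ST_CONE) (hIso : ST_ISO)
    (D : Dat) (Mn : ℕ) (hD : DOK D) (hnd : D.W.Nodup)
    (hcc : D.c * D.c ≤ Mn * 1000) (hiso : ∀ w ∈ D.W, isoOK D w = true)
    (L : List Vr) (hL : ∀ v ∈ L, vOK D v = true) (hn : nearCusp D L = true)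
    (x : ℕ → ℝ) (hx : InCone L x) (hp : IsPt D x) (hW : ∀ w ∈ D.W, 0 < dx w x)
    (h0 : 0 < dx D.w0 x) :
    (D.W.map fun w => pp D.c (dx w x)).sum ≤ (Mn : ℝ) / 1000 := by
  have hd : (0 : ℝ) < D.d := by exact_mod_cast hD.dpos
  rcases Nat.eq_zero_or_pos D.c with hc | hc
  · have : D.W.map (fun w => pp D.c (dx w x)) = D.W.map (fun _ => (0 : ℝ)) := by
      apply List.map_congr_left
      intro w hw
      have := hW w hw
      rw [pp, hc]
      have : max (0 : ℝ) (((0 : ℕ) : ℝ) / 1000 - dx w x) = 0 := by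
        apply max_eq_left
        simp
        linarith
      rw [this]
      simp
    rw [this]
    simp
    positivity
  have hcr : (0 : ℝ) < D.c := by exact_mod_cast hc
  have hu : dx D.w0 x ≤ 500 / (D.c : ℝ) * (bl D.H x x / D.d) := by
    apply hCone D x hD.dpos hp L x hx D.w0 (500 / (D.c : ℝ)) (by positivity)
    intro v hv
    have h1 := up_nearCusp D L hn v hv
    have h2 := up_nu hA hC D v (hL v hv)
    have h3 : (2 * (D.c : ℝ) * dx D.w0 (fn v.v) * (2 * (D.c : ℝ) * dx D.w0 (fn v.v))) * D.d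
        ≤ 1000000 * (v.nu : ℝ) := by
      rw [← hA.dn_eq]
      exact_mod_cast h1
    rw [← h2]
    have ht : 0 ≤ dx D.w0 (fn v.v) := by
      rw [← hA.dn_eq]
      positivity
    have h4 : 2 * (D.c : ℝ) * dx D.w0 (fn v.v) / 1000 ≤ Real.sqrt ((v.nu : ℝ) / D.d) := by
      apply Real.le_sqrt_of_sq_le
      rw [le_div_iff₀ hd]
      nlinarith
    calc dx D.w0 (fn v.v) = 500 / (D.c : ℝ) * (2 * (D.c : ℝ) * dx D.w0 (fn v.v) / 1000) := by
          field_simp
          ring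
      _ ≤ 500 / (D.c : ℝ) * Real.sqrt ((v.nu : ℝ) / D.d) :=
          mul_le_mul_of_nonneg_left h4 (by positivity)
  rw [hp.nrm, div_self hd.ne', mul_one, le_div_iff₀ hcr] at hu
  have hCC : (D.c : ℝ) * D.c ≤ Mn * 1000 := by exact_mod_cast hcc
  apply up_sum_single (fun w => pp D.c (dx w x)) D.w0 ((Mn : ℝ) / 1000) (by positivity) ?_ D.W hnd
  · intro w hw hne
    have h1 := hIso D hD w hw hne (hiso w hw) x hp (hW w hw) h0
    have h2 : (D.c : ℝ) / 1000 ≤ dx w x := by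
      have h3 := hW w hw
      have h4 : (D.c : ℝ) * 1 ≤ D.c * (2 * (dx w x * dx D.w0 x)) :=
        mul_le_mul_of_nonneg_left h1 hcr.le
      have h5 : (D.c : ℝ) * (2 * (dx w x * dx D.w0 x)) = 2 * dx w x * (dx D.w0 x * D.c) := by ring
      have h6 : 2 * dx w x * (dx D.w0 x * D.c) ≤ 2 * dx w x * 500 :=
        mul_le_mul_of_nonneg_left hu (by linarith)
      rw [div_le_iff₀ (by norm_num)]
      linarith
    show pp D.c (dx w x) = 0
    rw [pp, max_eq_left (by linarith)]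
    norm_num
  · show pp D.c (dx D.w0 x) ≤ (Mn : ℝ) / 1000
    rw [pp]
    have h1 : max 0 ((D.c : ℝ) / 1000 - dx D.w0 x) ≤ (D.c : ℝ) / 1000 :=
      max_le (by positivity) (by linarith)
    have h2 : (max 0 ((D.c : ℝ) / 1000 - dx D.w0 x)) ^ 2 ≤ ((D.c : ℝ) / 1000) ^ 2 :=
      pow_le_pow_left₀ (le_max_left _ _) h1 2
    refine h2.trans ?_
    rw [div_pow, div_le_div_iff₀ (by norm_num) (by norm_num)]
    nlinarith

theorem up_term (C S u : ℝ) (hS : 1 ≤ S) (hu : 0 ≤ u) :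
    S * (max 0 (C - u)) ^ 2 ≤ (max 0 (C * S - u)) ^ 2 := by
  rcases le_or_gt C u with h | h
  · rw [max_eq_left (by linarith)]
    have : 0 ≤ (max 0 (C * S - u)) ^ 2 := by positivity
    simp
  · have h1 : 0 < C - u := by linarith
    have h2 : S * (C - u) ≤ C * S - u := by nlinarith
    have h3 : 0 < C * S - u := lt_of_lt_of_le (by positivity) h2
    rw [max_eq_right h1.le, max_eq_right h3.le]
    have h4 : S * (C - u) ^ 2 ≤ (S * (C - u)) ^ 2 := by
      have : 0 ≤ (C - u) ^ 2 := by positivity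
      nlinarith
    exact h4.trans (pow_le_pow_left₀ (by positivity) h2 2)

/-- near a center -/
theorem up_cen (hA : ST_LSTA) (hB : ST_LSTB) (hC : ST_LSTC) (hUPC : ST_UPC) (hUPV : ST_UPV)
    (D : Dat) (Mn : ℕ) (hD : DOK D)
    (L : List Vr) (hL : ∀ v ∈ L, vOK D v = true ∧ upV D Mn v = true)
    (X HX : List ℕ) (ka : ℕ) (hl : leafUp D (UL.cen X HX ka) L = true)
    (x : ℕ → ℝ) (hx : InCone L x) (hp : IsPt D x) (hW : ∀ w ∈ D.W, 0 < dx w x) :
    (D.W.map fun w => pp D.c (dx w x)).sum ≤ (Mn : ℝ) / 1000 := by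
  have hd : (0 : ℝ) < D.d := by exact_mod_cast hD.dpos
  rw [leafUp] at hl
  simp only [Bool.and_eq_true] at hl
  obtain ⟨⟨⟨⟨h1, h2⟩, h3⟩, h4⟩, h5⟩ := hl
  rw [hB.beqL] at h1
  subst h1
  have hka : 1 ≤ ka := Nat.le_of_ble_eq_true h3
  have hkr : (1 : ℝ) ≤ ka := by exact_mod_cast hka
  have h4' : ka * ka ≤ D.d * dn X (mv D.H X) := Nat.le_of_ble_eq_true h4
  have hXX : ((dn X (mv D.H X) : ℕ) : ℝ) = bl D.H (fn X) (fn X) := by
    rw [hA.dn_comm, hA.dn_eq, hC.mv_fn]
  obtain ⟨S, hS0, hS1, hS2⟩ := hUPC D x hD.dpos hp D.W X ((Mn : ℝ) / 1000) ((D.c : ℝ) / 1000)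
    (ka : ℝ) (by positivity) (by positivity) L x hx
    (fun v hv => hUPV D Mn v hD.dpos (hL v hv).1 (hL v hv).2)
    (fun v hv => by
      have h6 := up_cenOK _ _ L h5 v hv
      rw [← hC.mv_fn, ← hA.dn_eq]
      exact_mod_cast h6)
  rw [hp.nrm, div_self hd.ne', mul_one] at hS1
  have hnn : 0 ≤ bl D.H x (fn X) :=
    hC.bl_nonneg D.H x (fn X) hp.nn (fun i => by rw [fn]; positivity)
  have h7 := hp.rcs (fn X)
  have h8 : (ka : ℝ) * ka ≤ D.d * bl D.H (fn X) (fn X) := by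
    rw [← hXX]
    exact_mod_cast h4'
  have h9 : (ka : ℝ) ^ 2 ≤ (S * ka) ^ 2 := by
    have : (bl D.H x (fn X)) ^ 2 ≤ (S * ka) ^ 2 := pow_le_pow_left₀ hnn hS2 2
    nlinarith
  have hSS : 1 ≤ S := by
    by_contra hlt
    push Not at hlt
    have h10 : S * ka < ka := by nlinarith
    have h11 : (S * (ka : ℝ)) ^ 2 < (ka : ℝ) ^ 2 := pow_lt_pow_left₀ h10 (by positivity) (by norm_num)
    linarith
  have h12 : S * (D.W.map fun w => pp D.c (dx w x)).sum
      ≤ (D.W.map fun w => (max 0 ((D.c : ℝ) / 1000 * S - dx w x)) ^ 2).sum := by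
    rw [← List.sum_map_mul_left]
    apply List.sum_le_sum
    intro w hw
    exact up_term _ _ _ hSS (hW w hw).le
  have h13 : S * (D.W.map fun w => pp D.c (dx w x)).sum ≤ S * ((Mn : ℝ) / 1000) := by
    refine h12.trans (hS1.trans (le_of_eq (by ring)))
  exact le_of_mul_le_mul_left h13 (by linarith)

theorem st_UP (hA : ST_LSTA) (hB : ST_LSTB) (hC : ST_LSTC) (hTree : ST_TREE) (hInit : ST_INIT)
    (hGet : ST_GET) (hCone : ST_CONE) (hUPC : ST_UPC) (hUPV : ST_UPV) (hIso : ST_ISO) : ST_UP := by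
  intro D C hD hnd h1 h2 h3 x hp hW h0
  rw [upTab] at h1
  rw [upVerts] at h2
  rw [upTree] at h3
  simp only [Bool.and_eq_true] at h1 h2
  obtain ⟨⟨⟨⟨⟨⟨a1, a2⟩, a3⟩, a4⟩, a5⟩, a6⟩, a7⟩ := h1
  obtain ⟨b1, b2⟩ := h2
  rw [List.all_eq_true] at a2 a5 b2
  have hin : InCone C.L0 x := hInit (D.n + 2) C.L0 a3 x hp.nn hp.zero
  refine hTree UL (fun v => vOK D v = true ∧ upV D C.Mn v = true) C.T (leafUp D) C.tr C.L0
    (fun y => IsPt D y → (∀ w ∈ D.W, 0 < dx w y) → 0 < dx D.w0 y →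
      (D.W.map fun w => pp D.c (dx w y)).sum ≤ (C.Mn : ℝ) / 1000) ?_ ?_ ?_ h3 x hin hp hW h0
  · intro k v hk
    exact ⟨hGet Vr _ C.T a1 k v hk, hGet Vr _ C.T b1 k v hk⟩
  · intro v hv
    exact ⟨a2 v hv, b2 v hv⟩
  · intro k L' hL' hok y hy hpy hWy h0y
    cases k with
    | cusp =>
      exact up_cusp hA hC hCone hIso D C.Mn hD hnd (Nat.le_of_ble_eq_true a4) a5 L'
        (fun v hv => (hL' v hv).1) hok y hy hpy hWy h0y
    | cen X HX ka =>
      exact up_cen hA hB hC hUPC hUPV D C.Mn hD L' hL' X HX ka hok y hy hpy hWy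

end Pool.Agent.Helper10.Fam
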